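import Mathlib
import Pool.Agent.TH932.S2.G.Inc
import Pool.Agent.TH932.S2.G.Gc

set_option autoImplicit false

/-!
# The block complexity of the saturated digit word in base 3/2
-/

namespace Pool.Agent.Results.MP_baf0bc_nt.SuperlinearSaturatedWord

open Filter Topology Pool.Agent.TH932.Words Pool.Agent.TH932.S2

/-- the map `U` of the problem -/
def U (n : ℕ) : ℕ := if n % 2 = 0 then (3 * n + 2) / 2 else (3 * n + 1) / 2

/-- the letter number `k + 1` of the infinite word `⟨sat(∞)⟩` -/
def letter (k : ℕ) : ℕ := if U^[k] 0 % 2 = 0 then 2 else 1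

/-- the number of different words of length `n` which occur in `⟨sat(∞)⟩` -/
noncomputable def blocks (n : ℕ) : ℕ :=
  (Set.range fun i : ℕ => fun j : Fin n => letter (i + j)).ncard

/-- the number of different words of length `n` which occur in the `H` letters of `⟨sat(∞)⟩` after
the first `s` ones -/
noncomputable def blocksIn (s H n : ℕ) : ℕ :=
  ((fun i : ℕ => fun j : Fin n => letter (s + i + j)) '' {i | i + n ≤ H}).ncard

/-- the orbit -/
def y (s k : ℕ) : ℤ := (U^[s + k] 0 : ℕ)

/-- exponents -/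
def dl (_ : ZMod 2) : ℕ := 1

/-- constant terms -/
def bt (a : ZMod 2) : ℤ := if a = 1 then 1 else 2

lemma par_odd {a : ℤ} : ((a : ℤ) : ZMod 2) = 1 ↔ a % 2 = 1 := by
  have h1 : (1 : ZMod 2) = ((1 : ℤ) : ZMod 2) := by simp
  rw [h1, ZMod.intCast_eq_intCast_iff, Int.ModEq]
  norm_num

lemma y_rec (s k : ℕ) : ((2 : ℕ) : ℤ) * y s (k + 1) =
    ((3 : ℕ) : ℤ) ^ dl ((y s k : ℤ) : ZMod 2) * y s k + bt ((y s k : ℤ) : ZMod 2) := by
  unfold y dl bt
  rw [← add_assoc, Function.iterate_succ_apply']
  set n := U^[s + k] 0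
  rcases Nat.mod_two_eq_zero_or_one n with h | h
  · rw [if_neg (by rw [par_odd]; omega), U, if_pos h]
    push_cast
    omega
  · rw [if_pos (by rw [par_odd]; omega), U, if_neg (by omega)]
    push_cast
    omega

lemma U_ge (n : ℕ) : 3 * (n + 1) ≤ 2 * (U n + 1) := by
  rcases Nat.mod_two_eq_zero_or_one n with h | h
  · rw [U, if_pos h]; omega
  · rw [U, if_neg (by omega)]; omega

lemma U_le (n : ℕ) : U n + 1 ≤ 2 * (n + 1) := by
  rcases Nat.mod_two_eq_zero_or_one n with h | h
  · rw [U, if_pos h]; omega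
  · rw [U, if_neg (by omega)]; omega

lemma iter_ge (k : ℕ) : (3 / 2 : ℝ) ^ k ≤ (U^[k] 0 : ℕ) + 1 := by
  induction k with
  | zero => simp
  | succ k ih =>
    have h1 := U_ge (U^[k] 0)
    have e : U^[k + 1] 0 = U (U^[k] 0) := Function.iterate_succ_apply' U k 0
    rw [← e] at h1
    have h2 : (3 : ℝ) * ((U^[k] 0 : ℕ) + 1) ≤ 2 * ((U^[k + 1] 0 : ℕ) + 1) := by exact_mod_cast h1
    rw [pow_succ]
    linarith

lemma iter_le (k : ℕ) : U^[k] 0 + 1 ≤ 2 ^ k := by
  induction k with
  | zero => simp
  | succ k ih =>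
    have h1 := U_le (U^[k] 0)
    have e : U^[k + 1] 0 = U (U^[k] 0) := Function.iterate_succ_apply' U k 0
    rw [← e] at h1
    rw [pow_succ]
    omega

lemma mono : StrictMono fun k => U^[k] 0 := by
  apply strictMono_nat_of_lt_succ
  intro k
  have h1 := U_ge (U^[k] 0)
  have e : U^[k + 1] 0 = U (U^[k] 0) := Function.iterate_succ_apply' U k 0
  rw [← e] at h1
  change U^[k] 0 < U^[k + 1] 0
  by_contra h
  push Not at h
  omega

lemma y_inj (s : ℕ) : Function.Injective (y s) := by
  intro i j h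
  have h1 : U^[s + i] 0 = U^[s + j] 0 := by
    unfold y at h
    exact_mod_cast h
  have := mono.injective h1
  omega

/-- the windows of the word -/
theorem windows (C : ℝ) : ∃ K : ℕ, ∀ s N : ℕ, K ≤ N → s ≤ N →
    C * N < blocksIn s (K * N) N := by
  obtain ⟨K, hK, h⟩ := G.incr (α := ZMod 2) (p := 2) (q := 3) le_rfl (by norm_num)
    (by norm_num [Int.isCoprime_iff_gcd_eq_one]) dl bt C (ρ := 3 / 2) (by norm_num)
  refine ⟨K, fun s N hN hs => ?_⟩
  have h1 := h N hN (fun k => ((y s k : ℤ) : ZMod 2)) (y s) (y_rec s) (y_inj s) (by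
      have h1 : (y s 0 : ℝ) ≤ 2 ^ s := by
        have h2 := iter_le s
        unfold y
        rw [add_zero]
        push_cast
        have h3 : ((U^[s] 0 + 1 : ℕ) : ℝ) ≤ ((2 ^ s : ℕ) : ℝ) := by exact_mod_cast h2
        push_cast at h3
        linarith
      have h0 : (0 : ℝ) ≤ (y s 0 : ℝ) := by unfold y; positivity
      rw [abs_of_nonneg h0]
      refine h1.trans ((G.Gc.two_exp s).trans (Real.exp_le_exp.2 (by exact_mod_cast hs)))) (by
      intro k
      have h1 := iter_ge (s + k)
      have h0 : (0 : ℝ) ≤ (y s k : ℝ) := by unfold y; positivity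
      rw [abs_of_nonneg h0]
      have h2 : (3 / 2 : ℝ) ^ k ≤ (3 / 2) ^ (s + k) :=
        pow_le_pow_right₀ (by norm_num) (by omega)
      unfold y
      push_cast
      linarith)
  refine lt_of_lt_of_le h1 ?_
  have h2 : F.wc (fun k => ((y s k : ℤ) : ZMod 2)) (K * N) N ≤ blocksIn s (K * N) N := by
    have hb : ∀ i j : ℕ, (fun l : Fin N => letter (s + i + l)) = (fun l : Fin N => letter (s + j + l)) →
        fac (fun k => ((y s k : ℤ) : ZMod 2)) N i = fac (fun k => ((y s k : ℤ) : ZMod 2)) N j := by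
      intro i j hij
      funext l
      have h3 := congrFun hij l
      simp only [letter] at h3
      simp only [fac, y]
      rw [← add_assoc, ← add_assoc]
      rw [ZMod.intCast_eq_intCast_iff, Int.ModEq]
      set a := U^[s + i + ↑l] 0
      set b := U^[s + j + ↑l] 0
      rcases Nat.mod_two_eq_zero_or_one a with ha | ha <;>
        rcases Nat.mod_two_eq_zero_or_one b with hb | hb
      · omega
      · rw [if_pos ha, if_neg (by omega)] at h3; omega
      · rw [if_neg (by omega), if_pos hb] at h3; omega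
      · omega
    -- letters as elements of `Fin 3`
    have hb' : ∀ i j : ℕ, (fun l : Fin N => (⟨letter (s + i + l) % 3, Nat.mod_lt _ (by norm_num)⟩ : Fin 3))
        = (fun l : Fin N => (⟨letter (s + j + l) % 3, Nat.mod_lt _ (by norm_num)⟩ : Fin 3)) →
        fac (fun k => ((y s k : ℤ) : ZMod 2)) N i = fac (fun k => ((y s k : ℤ) : ZMod 2)) N j := by
      intro i j hij
      apply hb
      funext l
      have h3 := Fin.val_eq_of_eq (congrFun hij l)
      simp only at h3
      have hl : ∀ k, letter k < 3 := by intro k; unfold letter; split_ifs <;> norm_num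
      rwa [Nat.mod_eq_of_lt (hl _), Nat.mod_eq_of_lt (hl _)] at h3
    unfold F.wc blocksIn
    refine (G.Gc.ncard_dep _ _ hb' _).trans ?_
    have e : (fun i : ℕ => fun l : Fin N => (⟨letter (s + i + l) % 3, Nat.mod_lt _ (by norm_num)⟩ : Fin 3))
        = (fun v : Fin N → ℕ => fun l => (⟨v l % 3, Nat.mod_lt _ (by norm_num)⟩ : Fin 3)) ∘
          (fun i : ℕ => fun l : Fin N => letter (s + i + l)) := rfl
    rw [e, Set.image_comp]
    apply Set.ncard_image_le
    apply Set.Finite.subset
      (Set.finite_univ.image (fun v : Fin N → Fin 3 => fun j => ((v j : Fin 3) : ℕ)))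
    rintro _ ⟨i, _, rfl⟩
    refine ⟨fun j => ⟨letter (s + i + j), ?_⟩, trivial, rfl⟩
    unfold letter; split_ifs <;> norm_num
  exact_mod_cast h2

/-- **Result.** (1) The number of different words of length `n` which occur in `⟨sat(∞)⟩`, divided by
`n`, tends to infinity.

(2) For every `C` there is `K` such that for all `N ≥ K` and `s ≤ N` more than `C N` different
words of length `N` occur in the block of `K N` letters of `⟨sat(∞)⟩` after the first `s` ones. -/
theorem result :
    Tendsto (fun n : ℕ => (blocks n : ℝ) / n) atTop atTop ∧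
    ∀ C : ℝ, ∃ K : ℕ, ∀ s N : ℕ, K ≤ N → s ≤ N → C * N < blocksIn s (K * N) N := by
  refine ⟨?_, windows⟩
  rw [tendsto_atTop]
  intro C
  obtain ⟨K, hK⟩ := windows C
  filter_upwards [eventually_ge_atTop K, eventually_gt_atTop 0] with N h1 h2
  have hN : (0 : ℝ) < N := by exact_mod_cast h2
  rw [le_div_iff₀ hN]
  have h3 := hK 0 N h1 (Nat.zero_le _)
  have h4 : blocksIn 0 (K * N) N ≤ blocks N := by
    unfold blocksIn blocks
    apply Set.ncard_le_ncard
    · rintro _ ⟨i, _, rfl⟩
      exact ⟨i, by simp only [zero_add]⟩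
    · apply Set.Finite.subset
        (Set.finite_univ.image (fun v : Fin N → Fin 3 => fun j => ((v j : Fin 3) : ℕ)))
      rintro _ ⟨i, rfl⟩
      refine ⟨fun j => ⟨letter (i + j), ?_⟩, trivial, rfl⟩
      unfold letter; split_ifs <;> norm_num
  have h5 : (blocksIn 0 (K * N) N : ℝ) ≤ blocks N := by exact_mod_cast h4
  linarith

end Pool.Agent.Results.MP_baf0bc_nt.SuperlinearSaturatedWord
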